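import Mathlib
import Pool.Agent.Helper97.IterWalk.Exist

open MeasureTheory ProbabilityTheory Filter Topology
open Pool.Agent.Helper97.IW

namespace Pool.Agent.Results.MP_bb3c31_pr.DetVelocity

/-- The answer is yes: under Condition (C) (with `e_1` the coordinate of index `0`), there is a
constant `κ ≥ 0`, depending only on the distributions `p^(i)`, such that for every realisation of
the iterated biased walks on a probability space, almost surely `X^(∞)_n / n → κ δ^(0)`. -/
theorem result (d : ℕ) (hd : 2 ≤ d) (p : ℕ → Dir d → ℝ) (pInf : Dir d → ℝ)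
    (hC : CondC (⟨0, by omega⟩ : Fin d) p pInf) :
    ∃ κ : ℝ, 0 ≤ κ ∧
      ∀ (Ω : Type*) [MeasurableSpace Ω] (μ : Measure Ω) [IsProbabilityMeasure μ]
        (X : ℕ → ℕ → Ω → Pt d) (Y : ℕ → Ω → Pt d), IsIteratedWalk μ p pInf X Y →
        ∀ᵐ ω ∂μ, Tendsto (fun (n : ℕ) (j : Fin d) => ((Y n ω j : ℤ) : ℝ) / n) atTop
          (𝓝 fun j => κ * drift (p 0) j) :=
  main_transfer hC

/-- Sanity check (not part of the result): such processes exist. -/
theorem nonvacuous (d : ℕ) (hd : 2 ≤ d) (p : ℕ → Dir d → ℝ) (pInf : Dir d → ℝ)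
    (hC : CondC (⟨0, by omega⟩ : Fin d) p pInf) :
    ∃ (Ω : Type) (_ : MeasurableSpace Ω) (μ : Measure Ω) (_ : IsProbabilityMeasure μ)
      (X : ℕ → ℕ → Ω → Pt d) (Y : ℕ → Ω → Pt d), IsIteratedWalk μ p pInf X Y :=
  ⟨_, _, _, inferInstance, _, _, exists_iteratedWalk hC⟩

end Pool.Agent.Results.MP_bb3c31_pr.DetVelocity
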